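import Mathlib

set_option autoImplicit false

/-! A simple virtual endomorphism of a group gives a faithful self-similar action. -/

namespace Pool.Agent.R638.SelfSim

variable {G : Type} [Group G] (H : Subgroup G) (f : H →* G)

/-- coset representatives -/
noncomputable def rp (x : G ⧸ H) : G := Quotient.out x

theorem mk_rp (x : G ⧸ H) : (QuotientGroup.mk (rp H x) : G ⧸ H) = x := Quotient.out_eq x

theorem mem_H (g : G) (x : G ⧸ H) : (rp H (g • x))⁻¹ * (g * rp H x) ∈ H := by
  rw [← QuotientGroup.eq, mk_rp]
  conv_lhs => rw [← mk_rp H x]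
  rfl

/-- the section of `g` at the letter `x` -/
noncomputable def sec (g : G) (x : G ⧸ H) : G := f ⟨_, mem_H H g x⟩

theorem sec_mul (g h : G) (x : G ⧸ H) : sec H f (g * h) x = sec H f g (h • x) * sec H f h x := by
  unfold sec
  rw [← map_mul]
  congr 1
  apply Subtype.ext
  simp only [Subgroup.coe_mul]
  rw [mul_smul]
  group

theorem sec_one (x : G ⧸ H) : sec H f 1 x = 1 := by
  unfold sec
  rw [← map_one f]
  congr 1
  apply Subtype.ext
  simp

/-- the action on words -/
noncomputable def act : G → List (G ⧸ H) → List (G ⧸ H)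
  | _, [] => []
  | g, x :: w => (g • x) :: act (sec H f g x) w

theorem act_mul (w : List (G ⧸ H)) : ∀ g h : G, act H f (g * h) w = act H f g (act H f h w) := by
  induction w with
  | nil => intro g h; rfl
  | cons x w ih =>
    intro g h
    simp only [act]
    rw [sec_mul, ih, mul_smul]

theorem act_one (w : List (G ⧸ H)) : act H f 1 w = w := by
  induction w with
  | nil => rfl
  | cons x w ih =>
    simp only [act]
    rw [sec_one, ih, one_smul]

/-- the action as a homomorphism -/
noncomputable def rho : G →* Equiv.Perm (List (G ⧸ H)) where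
  toFun g :=
    { toFun := act H f g
      invFun := act H f g⁻¹
      left_inv := fun w => by rw [← act_mul, inv_mul_cancel, act_one]
      right_inv := fun w => by rw [← act_mul, mul_inv_cancel, act_one] }
  map_one' := by
    ext1 w
    exact act_one H f w
  map_mul' g h := by
    ext1 w
    exact act_mul H f w g h

theorem rho_cons (g : G) (x : G ⧸ H) (w : List (G ⧸ H)) :
    rho H f g (x :: w) = (g • x) :: rho H f (sec H f g x) w := rfl

theorem ker_sec {g : G} (hg : g ∈ (rho H f).ker) (x : G ⧸ H) : g • x = x ∧ sec H f g x ∈ (rho H f).ker := by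
  have h : ∀ w, rho H f g (x :: w) = x :: w := fun w => by
    rw [MonoidHom.mem_ker.1 hg]; rfl
  have h1 := h []
  rw [rho_cons] at h1
  refine ⟨(List.cons.inj h1).1, ?_⟩
  rw [MonoidHom.mem_ker]
  ext1 w
  have h2 := h w
  rw [rho_cons] at h2
  exact (List.cons.inj h2).2

theorem ker_le : (rho H f).ker ≤ H := by
  intro g hg
  have h := (ker_sec H f hg (QuotientGroup.mk 1)).1
  have h2 : (QuotientGroup.mk g : G ⧸ H) = QuotientGroup.mk 1 := by
    rw [← h]
    change _ = QuotientGroup.mk (g * 1)
    rw [mul_one]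
  rw [eq_comm, QuotientGroup.eq] at h2
  simpa using h2

theorem ker_f {g : G} (hg : g ∈ (rho H f).ker) : f ⟨g, ker_le H f hg⟩ ∈ (rho H f).ker := by
  set x0 : G ⧸ H := QuotientGroup.mk 1
  set r := rp H x0 with hr
  have hg' : r * g * r⁻¹ ∈ (rho H f).ker := (inferInstance : ((rho H f).ker).Normal).conj_mem g hg r
  have h := ker_sec H f hg' x0
  have h2 : sec H f (r * g * r⁻¹) x0 = f ⟨g, ker_le H f hg⟩ := by
    unfold sec
    congr 1
    apply Subtype.ext
    simp only
    rw [h.1, ← hr]
    group
  rw [← h2]
  exact h.2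

/-- **A simple virtual endomorphism gives a faithful self-similar action.** -/
theorem exists_selfSimilar [H.FiniteIndex] (hH : H ≠ ⊤)
    (hcore : ∀ K : Subgroup G, K.Normal → (hK : K ≤ H) → (∀ (g : G) (hg : g ∈ K), f ⟨g, hK hg⟩ ∈ K) →
      K = ⊥) :
    ∃ (n : ℕ) (ρ : G →* Equiv.Perm (List (Fin n))), 2 ≤ n ∧ Function.Injective ρ ∧
      (∀ g, ρ g [] = []) ∧
      ∀ (g : G) (x : Fin n), ∃ (h : G) (y : Fin n), ∀ w : List (Fin n), ρ g (x :: w) = y :: ρ h w := by
  have hfin : Finite (G ⧸ H) := inferInstance
  obtain ⟨n, ⟨e⟩⟩ := Finite.exists_equiv_fin (G ⧸ H)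
  have hn : n = H.index := by
    unfold Subgroup.index
    rw [Nat.card_congr e, Nat.card_eq_fintype_card, Fintype.card_fin]
  let E : List (G ⧸ H) ≃ List (Fin n) := 
    { toFun := List.map e
      invFun := List.map e.symm
      left_inv := fun w => by simp
      right_inv := fun w => by simp }
  refine ⟨n, (E.permCongrHom.toMonoidHom).comp (rho H f), ?_, ?_, ?_, ?_⟩
  · have h0 : H.index ≠ 0 := Subgroup.FiniteIndex.index_ne_zero
    have h1 : H.index ≠ 1 := fun h => hH (Subgroup.index_eq_one.1 h)
    omega
  · apply Function.Injective.comp (g := E.permCongrHom.toMonoidHom)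
    · exact E.permCongrHom.injective
    · rw [← MonoidHom.ker_eq_bot_iff]
      exact hcore _ inferInstance (ker_le H f) (fun g hg => ker_f H f hg)
  · intro g
    rfl
  · intro g x
    refine ⟨sec H f g (e.symm x), e (g • e.symm x), fun w => ?_⟩
    change List.map e (rho H f g (List.map e.symm (x :: w))) = _ :: List.map e (rho H f _ (List.map e.symm w))
    rw [List.map_cons, rho_cons, List.map_cons]

end Pool.Agent.R638.SelfSim
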